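import Mathlib
import Pool.Agent.X28.WB.Two

/-!
# Near the Wilson quotients every behaviour occurs, and it is generic

A prime `p` is a Wilson prime if it divides the Wilson quotient `((p - 1)! + 1) / p`, the member with the parameter `0`
of the family `⌊(Γ(p + s) + 1) / p⌋` and the member with the parameter `1` of the family `⌊t ((p - 1)! + 1) / p⌋`. In
every interval of parameters the residues of the members modulo all large primes `p` can be prescribed at the same time,
so close to the Wilson quotients there are parameters for which all large primes and parameters for which no large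
primes are Wilson primes; and for generic parameters, in the sense of Baire, the counting function of the analogue of the
Wilson primes comes arbitrarily close both to the number of all primes and to a bounded function.
-/

set_option autoImplicit false

namespace Pool.Agent.Results.MP_de5eaa_nt.EveryBehaviourNearby

open Finset Filter Topology

/-- the integer part of `(Γ(p + s) + 1) / p`; for `s = 0` this is the Wilson quotient `((p - 1)! + 1) / p` -/
noncomputable def shifted (s : ℝ) (p : ℕ) : ℤ := ⌊(Real.Gamma (p + s) + 1) / p⌋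

/-- the integer part of `t` times the Wilson quotient of `p` -/
noncomputable def dilated (t : ℝ) (p : ℕ) : ℤ := ⌊t * ((((p - 1).factorial : ℝ) + 1) / p)⌋

/-- the number of primes `p < n` -/
def primesBelow (n : ℕ) : ℕ := ((range n).filter fun p : ℕ => p.Prime).card

/-- the number of primes `p < n` with `x p ≡ b (mod p)` -/
def hits (x : ℕ → ℤ) (b : ℤ) (n : ℕ) : ℕ := ((range n).filter fun p : ℕ => p.Prime ∧ (p : ℤ) ∣ x p - b).card

lemma many (x : ℕ → ℤ) (b : ℤ) (p₀ n : ℕ) (h : ∀ p : ℕ, p.Prime → p₀ ≤ p → p < n → (p : ℤ) ∣ x p - b) :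
    primesBelow n ≤ hits x b n + p₀ := by
  unfold primesBelow hits
  have h1 : (range n).filter (fun p : ℕ => p.Prime) ⊆
      ((range n).filter fun p : ℕ => p.Prime ∧ (p : ℤ) ∣ x p - b) ∪ range p₀ := by
    intro p hp
    rw [mem_filter, mem_range] at hp
    rw [mem_union, mem_filter, mem_range, mem_range]
    rcases lt_or_ge p p₀ with h2 | h2
    · exact Or.inr h2
    · exact Or.inl ⟨hp.1, hp.2, h p hp.2 h2 hp.1⟩
  have h2 := (card_le_card h1).trans (card_union_le _ _)
  rwa [card_range] at h2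

lemma few (x : ℕ → ℤ) (b : ℤ) (p₀ n : ℕ) (h : ∀ p : ℕ, p.Prime → p₀ ≤ p → p < n → (p : ℤ) ∣ x p - (b + 1)) :
    hits x b n ≤ p₀ := by
  unfold hits
  have h1 : ((range n).filter fun p : ℕ => p.Prime ∧ (p : ℤ) ∣ x p - b) ⊆ range p₀ := by
    intro p hp
    rw [mem_filter, mem_range] at hp
    rw [mem_range]
    by_contra hlt
    have h2 := h p hp.2.1 (not_lt.1 hlt) hp.1
    have h3 : (p : ℤ) ∣ 1 := by
      have := dvd_sub hp.2.2 h2
      have e : x p - b - (x p - (b + 1)) = 1 := by ring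
      rwa [e] at this
    have h4 : p ∣ 1 := by exact_mod_cast h3
    exact hp.2.1.one_lt.ne' (Nat.dvd_one.1 h4)
  have h2 := card_le_card h1
  rwa [card_range] at h2

lemma law_of (φ : ℕ → ℝ → ℝ) (hφ : Pool.Agent.X28.WB.Gr φ) (X : ℝ → ℕ → ℤ)
    (h : ∀ t p, 0 ≤ t → p.Prime → X t p = ⌊(p : ℝ) * φ p t⌋) :
    (∀ α β : ℝ, 0 ≤ α → α < β → ∃ p₀ : ℕ, ∀ b : ℕ → ℤ, ∃ t, α < t ∧ t < β ∧
      ∀ p : ℕ, p.Prime → p₀ ≤ p → (p : ℤ) ∣ X t p - b p) ∧
    ∀ ψ : ℕ → ℝ, Tendsto ψ atTop atTop → ∀ᶠ t in residual ℝ, 0 < t → ∀ b : ℤ,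
      (∃ᶠ n in atTop, (primesBelow n : ℝ) - ψ n ≤ hits (X t) b n) ∧ ∃ᶠ n in atTop, (hits (X t) b n : ℝ) ≤ ψ n := by
  refine ⟨fun α β hα hαβ => ?_, fun ψ hψ => ?_⟩
  · obtain ⟨p₀, hp₀⟩ := Pool.Agent.X28.WB.prescribe hφ α β hα hαβ
    refine ⟨p₀, fun b => ?_⟩
    obtain ⟨t, h1, h2, h3⟩ := hp₀ b
    refine ⟨t, h1, h2, fun p hp hpp => ?_⟩
    rw [h t p (hα.trans h1.le) hp]
    exact Pool.Agent.X28.WB.C_floor hp.pos (h3 p hp hpp)
  · filter_upwards [Pool.Agent.X28.WB.generic hφ ψ hψ] with t ht h0 b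
    have ht := ht h0
    refine ⟨?_, ?_⟩
    · rw [frequently_atTop]
      intro N
      obtain ⟨p₀, n, h1, h2, h3⟩ := ht b N
      refine ⟨n, h1, ?_⟩
      have h4 := many (X t) b p₀ n (fun p hp hpp hpn => by
        rw [h t p h0.le hp]
        exact Pool.Agent.X28.WB.C_floor hp.pos (h3 p hp hpp hpn))
      have h5 : (primesBelow n : ℝ) ≤ hits (X t) b n + p₀ := by exact_mod_cast h4
      linarith
    · rw [frequently_atTop]
      intro N
      obtain ⟨p₀, n, h1, h2, h3⟩ := ht (b + 1) N
      refine ⟨n, h1, ?_⟩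
      have h4 := few (X t) b p₀ n (fun p hp hpp hpn => by
        rw [h t p h0.le hp]
        exact Pool.Agent.X28.WB.C_floor hp.pos (h3 p hp hpp hpn))
      have h5 : (hits (X t) b n : ℝ) ≤ p₀ := by exact_mod_cast h4
      linarith

/-- (1) A prime `p` is a Wilson prime if and only if it divides `shifted 0 p`, and if and only if it divides
`dilated 1 p`. For both families `X`: (2) in every interval `(α, β)` with `0 ≤ α`, from some `p₀` on all the residues
`X t p mod p` can be prescribed at the same time by a parameter `t` of the interval; (3) if `ψ` tends to infinity then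
for all `t > 0` outside a meagre set, for every integer `b` the number of primes `p < n` with `X t p ≡ b (mod p)` is for
infinitely many `n` at least the number of all primes `p < n` minus `ψ n` and for infinitely many `n` at most `ψ n`. -/
theorem result :
    (∀ p : ℕ, p.Prime → ((p ^ 2 ∣ (p - 1).factorial + 1 ↔ (p : ℤ) ∣ shifted 0 p) ∧
      (p ^ 2 ∣ (p - 1).factorial + 1 ↔ (p : ℤ) ∣ dilated 1 p))) ∧
    ∀ X : ℝ → ℕ → ℤ, X = shifted ∨ X = dilated →
      (∀ α β : ℝ, 0 ≤ α → α < β → ∃ p₀ : ℕ, ∀ b : ℕ → ℤ, ∃ t, α < t ∧ t < β ∧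
        ∀ p : ℕ, p.Prime → p₀ ≤ p → (p : ℤ) ∣ X t p - b p) ∧
      ∀ ψ : ℕ → ℝ, Tendsto ψ atTop atTop → ∀ᶠ t in residual ℝ, 0 < t → ∀ b : ℤ,
        (∃ᶠ n in atTop, (primesBelow n : ℝ) - ψ n ≤ hits (X t) b n) ∧
          ∃ᶠ n in atTop, (hits (X t) b n : ℝ) ≤ ψ n := by
  refine ⟨fun p hp => ?_, ?_⟩
  · obtain ⟨w, hw⟩ := Pool.Agent.X28.WI.wq p hp
    rw [Pool.Agent.X28.WI.wilson_iff hp hw]
    have h1 : shifted 0 p = (w : ℤ) := by
      unfold shifted
      rw [Pool.Agent.X28.WI.gam_zero p hp.pos, Pool.Agent.X28.WI.floor_wq hp hw]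
      exact Int.floor_natCast w
    have h2 : dilated 1 p = (w : ℤ) := by
      unfold dilated
      rw [one_mul, Pool.Agent.X28.WI.floor_wq hp hw]
      exact Int.floor_natCast w
    rw [h1, h2]
    exact ⟨Iff.rfl, Iff.rfl⟩
  · rintro X (rfl | rfl)
    · apply law_of Pool.Agent.X28.WI.shc Pool.Agent.X28.WB.shc_gr
      intro t p ht hp
      have hp0 : (0 : ℝ) < p := by exact_mod_cast hp.pos
      rw [Pool.Agent.X28.WI.shc_eq p ht]
      unfold shifted
      congr 1
      field_simp
    · apply law_of Pool.Agent.X28.WI.amc Pool.Agent.X28.WB.amc_gr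
      intro t p ht hp
      have hp0 : (0 : ℝ) < p := by exact_mod_cast hp.pos
      unfold Pool.Agent.X28.WI.amc dilated
      congr 1
      field_simp

end Pool.Agent.Results.MP_de5eaa_nt.EveryBehaviourNearby
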