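import Mathlib
import Pool.Agent.X28.WD.Fin

/-!
# The dilations of the Wilson quotients with prescribed residues have full dimension

A prime `p` is a Wilson prime if it divides the Wilson quotient `((p - 1)! + 1) / p`, the member with `t = 1` of the
family `⌊t ((p - 1)! + 1) / p⌋`. For almost every `t` the number of primes `p < n` dividing the `p`-th member is
asymptotic to `log log n`. Here it is shown that the exceptional set has the largest possible Hausdorff dimension, in
every interval and in the strongest sense: for every choice of residues for all primes `p ≥ p₀` the set of the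
parameters with these residues has dimension `1`.
-/

set_option autoImplicit false

namespace Pool.Agent.Results.MP_de5eaa_nt.FullDimension

/-- the integer part of `t` times the Wilson quotient of `p` -/
noncomputable def dilated (t : ℝ) (p : ℕ) : ℤ := ⌊t * ((((p - 1).factorial : ℝ) + 1) / p)⌋

lemma main (α β : ℝ) (hαβ : α < β) : ∃ p₀ : ℕ, ∀ b : ℕ → ℤ,
    dimH {t : ℝ | α < t ∧ t < β ∧ ∀ p : ℕ, p.Prime → p₀ ≤ p → (p : ℤ) ∣ dilated t p - b p} = 1 := by
  obtain ⟨p₀, hp₀⟩ := Pool.Agent.X28.WD.dim_one α β hαβ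
  refine ⟨p₀, fun b => le_antisymm ?_ ((hp₀ b).trans (dimH_mono ?_))⟩
  · exact (dimH_mono (Set.subset_univ _)).trans (le_of_eq Real.dimH_univ)
  · rintro t ⟨h1, h2, h3⟩
    refine ⟨h1, h2, fun p hp hpp => ?_⟩
    have h4 := Pool.Agent.X28.WB.C_floor hp.pos (h3 p hp hpp)
    have hp0 : (0 : ℝ) < p := by exact_mod_cast hp.pos
    have e : dilated t p = ⌊(p : ℝ) * Pool.Agent.X28.WI.amc p t⌋ := by
      unfold dilated Pool.Agent.X28.WI.amc
      congr 1
      field_simp
    rw [e]
    exact h4

/-- (1) A prime `p` is a Wilson prime if and only if it divides `dilated 1 p`. (2) For every interval `(α, β)` there is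
`p₀` such that for every function `b` the set of the `t` in `(α, β)` with `dilated t p ≡ b p (mod p)` for all primes
`p ≥ p₀` has Hausdorff dimension `1`. (3) In every interval the set of the `t` for which only finitely many primes `p`
divide `dilated t p`, and the set of the `t` for which all but finitely many primes do, have dimension `1`. -/
theorem result :
    (∀ p : ℕ, p.Prime → (p ^ 2 ∣ (p - 1).factorial + 1 ↔ (p : ℤ) ∣ dilated 1 p)) ∧
    (∀ α β : ℝ, α < β → ∃ p₀ : ℕ, ∀ b : ℕ → ℤ,
      dimH {t : ℝ | α < t ∧ t < β ∧ ∀ p : ℕ, p.Prime → p₀ ≤ p → (p : ℤ) ∣ dilated t p - b p} = 1) ∧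
    ∀ α β : ℝ, α < β →
      dimH {t : ℝ | α < t ∧ t < β ∧ {p : ℕ | p.Prime ∧ (p : ℤ) ∣ dilated t p}.Finite} = 1 ∧
      dimH {t : ℝ | α < t ∧ t < β ∧ {p : ℕ | p.Prime ∧ ¬ (p : ℤ) ∣ dilated t p}.Finite} = 1 := by
  refine ⟨fun p hp => ?_, fun α β hαβ => main α β hαβ, fun α β hαβ => ?_⟩
  · obtain ⟨w, hw⟩ := Pool.Agent.X28.WI.wq p hp
    rw [Pool.Agent.X28.WI.wilson_iff hp hw]
    have h2 : dilated 1 p = (w : ℤ) := by
      unfold dilated
      rw [one_mul, Pool.Agent.X28.WI.floor_wq hp hw]
      exact Int.floor_natCast w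
    rw [h2]
  · obtain ⟨p₀, hp₀⟩ := main α β hαβ
    have hle : ∀ S : Set ℝ, dimH S ≤ 1 := fun S =>
      (dimH_mono (Set.subset_univ _)).trans (le_of_eq Real.dimH_univ)
    refine ⟨le_antisymm (hle _) ?_, le_antisymm (hle _) ?_⟩
    · rw [← hp₀ (fun _ => 1)]
      apply dimH_mono
      rintro t ⟨h1, h2, h3⟩
      refine ⟨h1, h2, (Set.finite_Iio p₀).subset ?_⟩
      rintro p ⟨hp, hpd⟩
      by_contra hlt
      have h4 := h3 p hp (not_lt.1 hlt)
      have h5 : (p : ℤ) ∣ 1 := by
        have := dvd_sub hpd h4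
        have e : dilated t p - (dilated t p - 1) = 1 := by ring
        rwa [e] at this
      have h6 : p ∣ 1 := by exact_mod_cast h5
      exact hp.one_lt.ne' (Nat.dvd_one.1 h6)
    · rw [← hp₀ (fun _ => 0)]
      apply dimH_mono
      rintro t ⟨h1, h2, h3⟩
      refine ⟨h1, h2, (Set.finite_Iio p₀).subset ?_⟩
      rintro p ⟨hp, hpd⟩
      by_contra hlt
      have h4 := h3 p hp (not_lt.1 hlt)
      rw [sub_zero] at h4
      exact hpd h4

end Pool.Agent.Results.MP_de5eaa_nt.FullDimension
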