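import Pool.Agent.X173.WilB

/-!
# Wilson primes of different orders

A prime `p` is a Wilson prime of order `n`, `1 ≤ n ≤ p`, if `p ^ 2` divides
`(-1) ^ n (n - 1)! (p - n)! - 1`; order `1` gives the Wilson primes.  For a fixed prime we bound
the number of orders in a window; for a window of consecutive orders we bound the number of primes
for which two of the factorial products agree modulo `p ^ 2`, and the average number of Wilson
primes (more generally of primes with a prescribed Wilson quotient) of the orders in the window.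
-/

set_option autoImplicit false

namespace Pool.Agent.Results.MP_de5eaa_nt.OrdersInWindows

open Nat

/-- The signed factorial product of order `n`; it is congruent to `1` modulo `p` for every prime
`p ≥ n ≥ 1` (Wilson's theorem). -/
def product (p n : ℕ) : ℤ := (-1) ^ n * (((n - 1)! * (p - n)! : ℕ) : ℤ)

/-- The primes `p`, `n ≤ p ≤ x`, for which the product of order `n` is congruent to `1 + p B(p)`
modulo `p ^ 2`. For `B = 0` these are the Wilson primes of order `n` up to `x`. -/
def primesOfOrder (B : ℕ → ℤ) (n x : ℕ) : Set ℕ :=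
  {p | p.Prime ∧ n ≤ p ∧ p ≤ x ∧ (p : ℤ) ^ 2 ∣ product p n - (1 + p * B p)}

/-- The primes `p ≥ M + L` for which two of the products of the orders `M + 1, ..., M + L` agree
modulo `p ^ 2`. -/
def collisionPrimes (M L : ℕ) : Set ℕ :=
  {p | p.Prime ∧ M + L ≤ p ∧ ∃ m n, M < m ∧ m < n ∧ n ≤ M + L ∧
    (p : ℤ) ^ 2 ∣ product p m - product p n}

theorem result :
    -- Wilson's theorem for all orders, and order one
    (∀ p n : ℕ, p.Prime → 1 ≤ n → n ≤ p → (p : ℤ) ∣ product p n - 1) ∧
    (∀ p : ℕ, p.Prime → ((p : ℤ) ^ 2 ∣ product p 1 - 1 ↔ p ^ 2 ∣ (p - 1)! + 1)) ∧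
    -- few primes with a collision in a window of `L` orders
    (∀ M L : ℕ, (collisionPrimes M L).Finite ∧ (collisionPrimes M L).ncard ≤ L.choose 3) ∧
    -- the sum of the counting functions over a window of `L` orders
    (∀ (B : ℕ → ℤ) (M L x : ℕ), ∑ j ∈ Finset.range L, (primesOfOrder B (M + 1 + j) x).ncard ≤
      primeCounting x + L.choose 3) ∧
    -- in every window of `⌈π(x) ^ (1/3)⌉` orders the average is at most `2 π(x) ^ (2/3)`
    (∀ (B : ℕ → ℤ) (M x : ℕ), ((∑ j ∈ Finset.range ⌈(primeCounting x : ℝ) ^ (1 / 3 : ℝ)⌉₊,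
        (primesOfOrder B (M + 1 + j) x).ncard : ℕ) : ℝ) ≤
      ⌈(primeCounting x : ℝ) ^ (1 / 3 : ℝ)⌉₊ * (2 * (primeCounting x : ℝ) ^ (2 / 3 : ℝ))) ∧
    -- one prime: few orders in a window of `L` orders
    (∀ (p : ℕ) (b : ℤ) (M L : ℕ), p.Prime → M + L ≤ p →
      (({n : ℕ | M < n ∧ n ≤ M + L ∧ (p : ℤ) ^ 2 ∣ product p n - b}.ncard : ℕ) : ℝ) ≤
        3 / 2 * (L : ℝ) ^ (2 / 3 : ℝ) + 1) := by
  have hprod : ∀ p n, product p n = Pool.Agent.X173.Wil.A p n := fun _ _ => rfl
  -- the sums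
  have hsum : ∀ (B : ℕ → ℤ) (M L x : ℕ),
      ∑ j ∈ Finset.range L, (primesOfOrder B (M + 1 + j) x).ncard ≤ primeCounting x + L.choose 3 := by
    intro B M L x
    have h1 := Pool.Agent.X173.Wil.window_sum B M L ((Finset.range (x + 1)).filter Nat.Prime)
      (fun p hp => (Finset.mem_filter.1 hp).2)
    have h2 : ((Finset.range (x + 1)).filter Nat.Prime).card = primeCounting x := by
      rw [Nat.primeCounting, Nat.primeCounting', Nat.count_eq_card_filter_range]
    rw [h2] at h1
    refine le_trans (le_of_eq (Finset.sum_congr rfl fun j _ => ?_)) h1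
    congr 1
    ext p
    simp only [primesOfOrder, Pool.Agent.X173.Wil.Hit, hprod, Set.mem_ofPred_eq,
      Finset.mem_filter, Finset.mem_range]
    constructor
    · rintro ⟨g1, g2, g3, g4⟩
      exact ⟨⟨by omega, g1⟩, g2, g4⟩
    · rintro ⟨⟨g1, g2⟩, g3, g4⟩
      exact ⟨g2, g3, by omega, g4⟩
  refine ⟨?_, ?_, ?_, hsum, ?_, ?_⟩
  · -- Wilson
    intro p n hp hn hnp
    induction n, hn using Nat.le_induction with
    | base =>
      have h1 : ((p - 1)! : ZMod p) = -1 := by
        have : Fact p.Prime := ⟨hp⟩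
        exact ZMod.wilsons_lemma p
      rw [← ZMod.intCast_zmod_eq_zero_iff_dvd]
      simp [product, h1]
    | succ n hn ih =>
      have h1 := ih (by omega)
      have h2 : product p n = (-1) ^ n * (((n - 1)! : ℕ) : ℤ) * ((p : ℤ) - n) * (p - (n + 1))! := by
        unfold product
        have h3 : p - n = (p - (n + 1)) + 1 := by omega
        rw [h3, Nat.factorial_succ]
        have h4 : ((p - (n + 1) : ℕ) : ℤ) = p - (n + 1) := by
          rw [Nat.cast_sub hnp]; push_cast; ring
        push_cast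
        rw [h4]
        ring
      have h3 : product p (n + 1) = -((-1) ^ n * (((n - 1)! : ℕ) : ℤ) * n * (p - (n + 1))!) := by
        unfold product
        obtain ⟨k, rfl⟩ := Nat.exists_eq_succ_of_ne_zero (by omega : n ≠ 0)
        simp only [Nat.succ_eq_add_one, Nat.add_sub_cancel, Nat.factorial_succ]
        push_cast
        ring
      have h4 : product p (n + 1) - 1 = (product p n - 1) -
          p * ((-1) ^ n * (((n - 1)! : ℕ) : ℤ) * (p - (n + 1))!) := by
        rw [h2, h3]; ring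
      rw [h4]
      exact dvd_sub h1 (Dvd.intro _ rfl)
  · -- order one
    intro p hp
    have h1 : product p 1 - 1 = -(((p - 1)! + 1 : ℕ) : ℤ) := by
      unfold product
      simp
      ring
    rw [h1, dvd_neg]
    exact_mod_cast Iff.rfl
  · -- collisions
    intro M L
    have key : ∀ S : Finset ℕ, (S : Set ℕ) ⊆ collisionPrimes M L → S.card ≤ L.choose 3 :=
      fun S hS => Pool.Agent.X173.Wil.few_collisions M L S fun p hp => hS hp
    have hfin : (collisionPrimes M L).Finite := by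
      by_contra hinf
      obtain ⟨S, hS1, hS2⟩ := Set.Infinite.exists_subset_card_eq hinf (L.choose 3 + 1)
      have := key S hS1
      omega
    refine ⟨hfin, ?_⟩
    rw [Set.ncard_eq_toFinset_card _ hfin]
    exact key _ (by simp)
  · -- the average
    intro B M x
    obtain ⟨y, hy⟩ : ∃ y : ℝ, y = (primeCounting x : ℝ) := ⟨_, rfl⟩
    have hy0 : 0 ≤ y := by rw [hy]; positivity
    rcases Nat.eq_zero_or_pos (primeCounting x) with h0 | h0
    · rw [h0]
      norm_num
    · have hy1 : 1 ≤ y := by rw [hy]; exact_mod_cast h0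
      rw [← hy]
      obtain ⟨c, hc⟩ : ∃ c : ℝ, c = y ^ (1 / 3 : ℝ) := ⟨_, rfl⟩
      have hc1 : 1 ≤ c := by rw [hc]; exact Real.one_le_rpow hy1 (by norm_num)
      have hc3 : c ^ 3 = y := by
        rw [hc, ← Real.rpow_natCast, ← Real.rpow_mul hy0]
        norm_num
      have hc2 : y ^ (2 / 3 : ℝ) = c ^ 2 := by
        rw [hc, ← Real.rpow_natCast, ← Real.rpow_mul hy0]
        norm_num
      rw [← hc, hc2]
      have h1 := Nat.le_ceil c
      have h2 := Nat.ceil_lt_add_one (by linarith : (0 : ℝ) ≤ c)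
      obtain ⟨L, hL⟩ : ∃ L : ℕ, L = ⌈c⌉₊ := ⟨_, rfl⟩
      rw [← hL] at h1 h2 ⊢
      have h3 : ((∑ j ∈ Finset.range L, (primesOfOrder B (M + 1 + j) x).ncard : ℕ) : ℝ) ≤
          y + (L.choose 3 : ℕ) := by
        rw [hy]; exact_mod_cast hsum B M L x
      have h4 : ((L.choose 3 : ℕ) : ℝ) ≤ (L : ℝ) ^ 3 / 6 := by
        have := Nat.choose_le_pow_div (α := ℝ) 3 L
        simpa [Nat.factorial] using this
      refine h3.trans ?_
      have h5 : (L : ℝ) ≤ 2 * c := by linarith
      have h6 : (L : ℝ) ^ 2 ≤ 4 * c ^ 2 := by nlinarith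
      have h7 : (L : ℝ) ^ 3 / 6 ≤ L * c ^ 2 := by
        have : (L : ℝ) ^ 3 = L * L ^ 2 := by ring
        rw [this]
        nlinarith [sq_nonneg c]
      have h8 : y ≤ L * c ^ 2 := by
        rw [← hc3]
        have : c ^ 3 = c * c ^ 2 := by ring
        rw [this]
        exact mul_le_mul_of_nonneg_right h1 (by positivity)
      linarith
  · -- one prime
    intro p b M L hp hML
    have hfin : {n : ℕ | M < n ∧ n ≤ M + L ∧ (p : ℤ) ^ 2 ∣ product p n - b}.Finite :=
      (Set.finite_Iic (M + L)).subset fun n hn => hn.2.1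
    obtain ⟨c, hc⟩ : ∃ c : ℝ, c = (L : ℝ) ^ (1 / 3 : ℝ) := ⟨_, rfl⟩
    have hc0 : 0 ≤ c := by rw [hc]; positivity
    have hc2 : (L : ℝ) ^ (2 / 3 : ℝ) = c ^ 2 := by
      rw [hc, ← Real.rpow_natCast, ← Real.rpow_mul (Nat.cast_nonneg _)]
      norm_num
    have hc3 : (L : ℝ) = c ^ 3 := by
      rw [hc, ← Real.rpow_natCast, ← Real.rpow_mul (Nat.cast_nonneg _)]
      norm_num
    obtain ⟨D, hD⟩ : ∃ D : ℕ, D = ⌊c⌋₊ := ⟨_, rfl⟩
    have hD1 : (D : ℝ) ≤ c := by rw [hD]; exact Nat.floor_le hc0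
    have hD2 : c < D + 1 := by rw [hD]; exact Nat.lt_floor_add_one c
    have h1 := Pool.Agent.X173.Wil.orders_bound hp b M L D hML hfin.toFinset (fun n hn => by
      rw [Set.Finite.mem_toFinset] at hn; exact hn)
    rw [← Set.ncard_eq_toFinset_card _ hfin] at h1
    have h2 : (({n : ℕ | M < n ∧ n ≤ M + L ∧ (p : ℤ) ^ 2 ∣ product p n - b}.ncard : ℕ) : ℝ) ≤
        (D.choose 2 : ℕ) + ((L + D) / (D + 1) : ℕ) := by exact_mod_cast h1
    have h3 : ((D.choose 2 : ℕ) : ℝ) ≤ c ^ 2 / 2 := by
      have := Nat.choose_le_pow_div (α := ℝ) 2 D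
      have h4 : ((D.choose 2 : ℕ) : ℝ) ≤ (D : ℝ) ^ 2 / 2 := by simpa [Nat.factorial] using this
      have h5 : (D : ℝ) ^ 2 ≤ c ^ 2 := pow_le_pow_left₀ (Nat.cast_nonneg _) hD1 2
      linarith
    have h4 : (((L + D) / (D + 1) : ℕ) : ℝ) ≤ 1 + c ^ 2 := by
      refine (Nat.cast_div_le).trans ?_
      rw [div_le_iff₀ (by positivity)]
      push_cast
      rw [hc3]
      nlinarith [sq_nonneg c]
    rw [hc2]
    linarith

end Pool.Agent.Results.MP_de5eaa_nt.OrdersInWindows
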