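import Mathlib
import Pool.Agent.X28.WI.Pts

/-!
# The law of Wilson primes for real shifts and real dilations of the Wilson quotient

A prime `p` is a Wilson prime if `p` divides the Wilson quotient `((p - 1)! + 1) / p`. We put the Wilson quotients into two
one-parameter families of integers, `⌊(Γ(p + s) + 1) / p⌋` (the Wilson quotient at `s = 0`) and
`⌊t ((p - 1)! + 1) / p⌋` (the Wilson quotient at `t = 1`), and show that for almost every parameter the expected law
holds: the number of primes `p < n` which divide the `p`-th member is asymptotic to `log log n`; likewise for all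
residues, all sets of primes and all windows of residues.
-/

set_option autoImplicit false

namespace Pool.Agent.Results.MP_de5eaa_nt.RealShifts

open Finset Filter Topology MeasureTheory

/-- the integer part of `(Γ(p + s) + 1) / p`; for `s = 0` this is the Wilson quotient `((p - 1)! + 1) / p` -/
noncomputable def shifted (s : ℝ) (p : ℕ) : ℤ := ⌊(Real.Gamma (p + s) + 1) / p⌋

/-- the integer part of `t` times the Wilson quotient of `p` -/
noncomputable def dilated (t : ℝ) (p : ℕ) : ℤ := ⌊t * ((((p - 1).factorial : ℝ) + 1) / p)⌋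

open Classical in
/-- the number of `p ∈ S`, `p < n`, for which the residue of `x p - B p` modulo `p` is less than `L p` -/
noncomputable def count (x : ℕ → ℤ) (S : Set ℕ) (B : ℕ → ℤ) (L : ℕ → ℕ) (n : ℕ) : ℕ :=
  ((range n).filter fun p => p ∈ S ∧ (x p - B p) % (p : ℤ) < L p).card

/-- the metric law for the family `X`: for each set `S` of primes, all `B p` and all `1 ≤ L p ≤ p`, if the sum of
`L p / p` over `S` diverges then for almost every `t ≥ 0` the number of `p ∈ S`, `p < n`, with
`(X t p - B p) mod p < L p` is asymptotic to the sum of `L p / p` over the `p ∈ S`, `p < n`, and if the sum converges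
then for almost every `t ≥ 0` there are only finitely many such `p` -/
def Law (X : ℝ → ℕ → ℤ) : Prop :=
  ∀ (S : Set ℕ) (B : ℕ → ℤ) (L : ℕ → ℕ), (∀ p ∈ S, p.Prime ∧ 1 ≤ L p ∧ L p ≤ p) →
    (¬ Summable (S.indicator fun p => (L p : ℝ) / p) → ∀ᵐ t : ℝ, 0 ≤ t →
      Tendsto (fun n => (count (X t) S B L n : ℝ) / ∑ p ∈ range n, S.indicator (fun p => (L p : ℝ) / p) p) atTop (𝓝 1)) ∧
    (Summable (S.indicator fun p => (L p : ℝ) / p) → ∀ᵐ t : ℝ, 0 ≤ t →
      {p | p ∈ S ∧ (X t p - B p) % (p : ℤ) < L p}.Finite)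

lemma law_of (φ : ℕ → ℝ → ℝ) (hφ : Pool.Agent.X28.WI.Fam φ) (X : ℝ → ℕ → ℤ)
    (h : ∀ t p, 0 ≤ t → p.Prime → X t p = ⌊(p : ℝ) * φ p t⌋) :
    (∀ᵐ t : ℝ, 0 ≤ t → ∀ b : ℤ,
      Tendsto (fun n : ℕ => (((range n).filter fun p : ℕ => p.Prime ∧ (p : ℤ) ∣ X t p - b).card : ℝ) /
        Real.log (Real.log n)) atTop (𝓝 1)) ∧ Law X := by
  classical
  refine ⟨?_, ?_⟩
  · filter_upwards [Pool.Agent.X28.WI.all_primes hφ] with t ht h0 b
    refine (ht h0 b).congr fun n => ?_
    congr 3
    ext p
    simp only [mem_filter, mem_range]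
    constructor
    · rintro ⟨h1, h2, h3⟩
      exact ⟨h1, h2, by rw [h t p h0 h2]; exact h3⟩
    · rintro ⟨h1, h2, h3⟩
      exact ⟨h1, h2, by rw [← h t p h0 h2]; exact h3⟩
  · intro S B L hS
    have hS1 : ∀ p ∈ S, p.Prime := fun p hp => (hS p hp).1
    have hS2 : ∀ p ∈ S, 1 ≤ L p ∧ L p ≤ p := fun p hp => (hS p hp).2
    have e : (S.indicator fun p => (L p : ℝ) / p) = fun p : ℕ => if p ∈ S then (L p : ℝ) / p else 0 := by
      funext p
      rw [Set.indicator_apply]
    refine ⟨fun hns => ?_, fun hs => ?_⟩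
    · rw [e] at hns
      filter_upwards [Pool.Agent.X28.WI.gen_div hφ S hS1 B L hS2 (by convert hns)] with t ht h0
      refine (ht h0).congr fun n => ?_
      unfold count
      congr 1
      · congr 2
        ext p
        simp only [mem_filter, mem_range]
        constructor
        · rintro ⟨h1, h2, h3⟩
          exact ⟨h1, h2, by rw [h t p h0 (hS1 p h2)]; exact h3⟩
        · rintro ⟨h1, h2, h3⟩
          exact ⟨h1, h2, by rw [← h t p h0 (hS1 p h2)]; exact h3⟩
      · rw [e, sum_filter]
    · rw [e] at hs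
      filter_upwards [Pool.Agent.X28.WI.gen_conv hφ S hS1 B L hS2 (by convert hs)] with t ht h0
      refine (ht h0).subset ?_
      rintro p ⟨hp, hpt⟩
      exact ⟨hp, by rw [← h t p h0 (hS1 p hp)]; exact hpt⟩

/-- (1) A prime `p` is a Wilson prime if and only if it divides `shifted 0 p`, and if and only if it divides
`dilated 1 p`. (2) For both families, for almost every parameter `t ≥ 0`: for every integer `b` the number of primes
`p < n` with `X t p ≡ b (mod p)` is asymptotic to `log log n`. (3) Both families satisfy the law for arbitrary sets of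
primes, residues and windows. (4) At the positive integers the shifted family is exceptional:
`shifted (k + 1) p ≡ - k! (mod p)` for all primes `p`. -/
theorem result :
    (∀ p : ℕ, p.Prime → ((p ^ 2 ∣ (p - 1).factorial + 1 ↔ (p : ℤ) ∣ shifted 0 p) ∧
      (p ^ 2 ∣ (p - 1).factorial + 1 ↔ (p : ℤ) ∣ dilated 1 p))) ∧
    (∀ X : ℝ → ℕ → ℤ, X = shifted ∨ X = dilated →
      (∀ᵐ t : ℝ, 0 ≤ t → ∀ b : ℤ,
        Tendsto (fun n : ℕ => (((range n).filter fun p : ℕ => p.Prime ∧ (p : ℤ) ∣ X t p - b).card : ℝ) /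
          Real.log (Real.log n)) atTop (𝓝 1)) ∧
      Law X) ∧
    ∀ k p : ℕ, p.Prime → (p : ℤ) ∣ shifted (k + 1) p + k.factorial := by
  refine ⟨fun p hp => ?_, ?_, fun k p hp => ?_⟩
  · obtain ⟨w, hw⟩ := Pool.Agent.X28.WI.wq p hp
    rw [Pool.Agent.X28.WI.wilson_iff hp hw]
    have h1 : shifted 0 p = (w : ℤ) := by
      unfold shifted
      rw [Pool.Agent.X28.WI.gam_zero p hp.pos, Pool.Agent.X28.WI.floor_wq hp hw]
      exact Int.floor_natCast w
    have h2 : dilated 1 p = (w : ℤ) := by
      unfold dilated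
      rw [one_mul, Pool.Agent.X28.WI.floor_wq hp hw]
      exact Int.floor_natCast w
    rw [h1, h2]
    exact ⟨Iff.rfl, Iff.rfl⟩
  · rintro X (rfl | rfl)
    · apply law_of Pool.Agent.X28.WI.shc Pool.Agent.X28.WI.shc_fam
      intro t p ht hp
      have hp0 : (0 : ℝ) < p := by exact_mod_cast hp.pos
      rw [Pool.Agent.X28.WI.shc_eq p ht]
      unfold shifted
      congr 1
      field_simp
    · apply law_of Pool.Agent.X28.WI.amc Pool.Agent.X28.WI.amc_fam
      intro t p ht hp
      have hp0 : (0 : ℝ) < p := by exact_mod_cast hp.pos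
      unfold Pool.Agent.X28.WI.amc dilated
      congr 1
      field_simp
  · exact Pool.Agent.X28.WI.int_point k p hp

end Pool.Agent.Results.MP_de5eaa_nt.RealShifts
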